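import Pool.Agent.W581.HQ.Stm

set_option autoImplicit false

/-! Project HQ (helper581): the conclusion, from supporting functions to quasiconvexity. -/

namespace Pool.Agent.W347.HQ

open MeasureTheory Set Filter Topology
open Pool.Agent.W360.MQ (RC wf QA cab RankOneConvex Quasiconvex)
open Pool.Agent.W581.HQ

theorem rank_dg (c : ℝ) (hc : c ≠ 0) : (dg 0 c).rank = 1 := by
  have h : dg 0 c = Matrix.diagonal ![0, c] := by
    ext i j
    fin_cases i <;> fin_cases j <;> simp [dg]
  rw [h, Matrix.rank_diagonal]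
  rw [Fintype.card_eq_one_iff]
  refine ⟨⟨1, by simpa using hc⟩, ?_⟩
  rintro ⟨i, hi⟩
  fin_cases i
  · simp at hi
  · rfl

theorem phi_cv {p : ℝ} {W : M2 → ℝ} (hW : Hyp p W) : ConvexOn ℝ univ (phi W) := by
  refine ⟨convex_univ, fun x _ y _ a b ha hb hab => ?_⟩
  by_cases hxy : x = y
  · subst hxy
    rw [← add_smul, hab, one_smul, ← add_smul, hab, one_smul]
  · have h := hW.roc (dg 1 x) (dg 0 (y - x)) (rank_dg _ (sub_ne_zero.2 (Ne.symm hxy))) b hb
      (by linarith)
    have e1 : dg 1 x + dg 0 (y - x) = dg 1 y := by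
      ext i j
      fin_cases i <;> fin_cases j <;> simp [dg]
    have ha' : a = 1 - b := by linarith
    have e2 : (1 - b) • dg 1 x + b • (dg 1 x + dg 0 (y - x)) = dg 1 (a • x + b • y) := by
      rw [e1, ha']
      ext i j
      fin_cases i <;> fin_cases j <;> simp [dg]
    rw [e2, e1] at h
    unfold phi
    rw [ha'] at h ⊢
    simpa using h

theorem phi_cont {p : ℝ} {W : M2 → ℝ} (hW : Hyp p W) : Continuous (phi W) := by
  have h := (phi_cv hW).continuousOn isOpen_univ
  exact continuousOn_univ.1 h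

theorem cab_cont : Continuous cab := by
  unfold cab
  have h : ∀ i j : Fin 2, Continuous (fun A : Matrix (Fin 2) (Fin 2) ℝ => A i j) := fun i j =>
    continuous_id.matrix_elem i j
  have h00 := h 0 0
  have h01 := h 0 1
  have h10 := h 1 0
  have h11 := h 1 1
  refine Continuous.prodMk ?_ ?_
  · refine Continuous.div_const ?_ 2
    refine (Complex.continuous_ofReal.comp (h00.add h11)).add
      ((Complex.continuous_ofReal.comp (h10.sub h01)).mul continuous_const)
  · refine Continuous.div_const ?_ 2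
    refine (Complex.continuous_ofReal.comp (h00.sub h11)).add
      ((Complex.continuous_ofReal.comp (h10.add h01)).mul continuous_const)

theorem W_cont (h1 : S_REP) {p : ℝ} {W : M2 → ℝ} (hW : Hyp p W) : Continuous W := by
  have hphi := phi_cont hW
  have hp := hW.p1
  have hX : Continuous (fun A : M2 => ‖(cab A).1‖) := (continuous_fst.comp cab_cont).norm
  have hY : Continuous (fun A : M2 => ‖(cab A).2‖) := (continuous_snd.comp cab_cont).norm
  have e : W = fun A : M2 => (‖(cab A).1‖ + ‖(cab A).2‖) ^ p *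
      phi W ((‖(cab A).1‖ - ‖(cab A).2‖) / (‖(cab A).1‖ + ‖(cab A).2‖)) := by
    funext A
    rw [h1 p W hW A]
    rfl
  obtain ⟨M, hM⟩ := (isCompact_Icc (a := (-1 : ℝ)) (b := 1)).exists_bound_of_continuousOn
    hphi.continuousOn
  rw [continuous_iff_continuousAt]
  intro A0
  by_cases h0 : ‖(cab A0).1‖ + ‖(cab A0).2‖ = 0
  · have hval : W A0 = 0 := by
      rw [h1 p W hW A0]
      unfold wp
      rw [h0, Real.zero_rpow (by linarith), zero_mul]
    have hlim : Tendsto (fun A : M2 => M * (‖(cab A).1‖ + ‖(cab A).2‖) ^ p) (𝓝 A0) (𝓝 0) := by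
      have hc : Continuous (fun A : M2 => M * (‖(cab A).1‖ + ‖(cab A).2‖) ^ p) :=
        ((hX.add hY).rpow_const fun _ => Or.inr (by linarith)).const_mul M
      have := hc.tendsto A0
      simp only [h0, Real.zero_rpow (by linarith : p ≠ 0), mul_zero] at this
      exact this
    show Tendsto W (𝓝 A0) (𝓝 (W A0))
    rw [hval]
    refine squeeze_zero_norm (fun A => ?_) hlim
    rw [h1 p W hW A]
    unfold wp
    have hx := norm_nonneg (cab A).1
    have hy := norm_nonneg (cab A).2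
    set x := ‖(cab A).1‖
    set y := ‖(cab A).2‖
    rw [norm_mul, Real.norm_of_nonneg (Real.rpow_nonneg (by positivity) _), mul_comm]
    refine mul_le_mul_of_nonneg_right (hM _ ?_) (Real.rpow_nonneg (by positivity) _)
    rcases (add_nonneg hx hy).eq_or_lt with h | h
    · rw [← h, div_zero]; constructor <;> norm_num
    · rw [mem_Icc, le_div_iff₀ h, div_le_iff₀ h]
      constructor <;> linarith
  · rw [e]
    refine ContinuousAt.mul ?_ ?_
    · exact (hX.add hY).continuousAt.rpow_const (Or.inl h0)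
    · refine hphi.continuousAt.comp ?_
      exact (hX.sub hY).continuousAt.div (hX.add hY).continuousAt h0

theorem tm_cont (F₀ : M2) : Continuous (fun L : (Fin 2 → ℝ) →L[ℝ] (Fin 2 → ℝ) =>
    F₀ + LinearMap.toMatrix' (L : (Fin 2 → ℝ) →ₗ[ℝ] (Fin 2 → ℝ))) := by
  refine continuous_const.add (continuous_matrix fun i j => ?_)
  simp only [LinearMap.toMatrix'_apply, ContinuousLinearMap.coe_coe]
  exact (continuous_apply i).comp (continuous_eval_const (F := (Fin 2 → ℝ) →L[ℝ] (Fin 2 → ℝ)) _)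

theorem int_comp {g : M2 → ℝ} (hg : Continuous g) (F₀ : M2) {Ω : Set (Fin 2 → ℝ)}
    (hb : Bornology.IsBounded Ω) {θ : (Fin 2 → ℝ) → (Fin 2 → ℝ)} {K : NNReal}
    (hθ : LipschitzWith K θ) :
    IntegrableOn (fun x => g (F₀ + LinearMap.toMatrix'
      ((fderiv ℝ θ x : (Fin 2 → ℝ) →L[ℝ] (Fin 2 → ℝ)) :
        (Fin 2 → ℝ) →ₗ[ℝ] (Fin 2 → ℝ)))) Ω := by
  have hc := hg.comp (tm_cont F₀)
  have hm := hc.measurable.comp (measurable_fderiv ℝ θ)
  have : ProperSpace ((Fin 2 → ℝ) →L[ℝ] (Fin 2 → ℝ)) := FiniteDimensional.proper_real _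
  obtain ⟨M, hM⟩ := (isCompact_closedBall (0 : (Fin 2 → ℝ) →L[ℝ] (Fin 2 → ℝ))
    (K : ℝ)).exists_bound_of_continuousOn hc.continuousOn
  refine Measure.integrableOn_of_bounded (M := M) hb.measure_lt_top.ne
    hm.aestronglyMeasurable (Eventually.of_forall fun x => ?_)
  refine hM _ ?_
  rw [mem_closedBall_zero_iff]
  exact norm_fderiv_le_of_lipschitz ℝ hθ

theorem main (h1 : S_REP) (h2 : Pool.Agent.W360.MQ.S_QA) (h3 : Pool.Agent.W360.MQ.S_CONT)
    (h4 : Pool.Agent.W360.MQ.S_OM) : S_FIN := by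
  intro p W hW hsup F₀ Ω hΩ hb θ hθ hz
  obtain ⟨α, β, hRC, hle, heq⟩ := hsup _ _ (norm_nonneg (cab F₀).1) (norm_nonneg (cab F₀).2)
  have hc := h3 α β hRC
  have hq := h4 (wf α β) hc (h2 α β hRC) F₀ Ω hΩ hb θ hθ hz
  have e0 : wf α β (cab F₀) = W F₀ := by
    rw [h1 p W hW F₀]
    exact heq
  rw [← e0]
  refine hq.trans ?_
  obtain ⟨K, hK⟩ := hθ
  refine integral_mono (int_comp (g := fun A => wf α β (cab A)) (hc.comp cab_cont) F₀ hb hK)
    (int_comp (W_cont h1 hW) F₀ hb hK) fun x => ?_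
  show wf α β (cab _) ≤ W _
  rw [h1 p W hW]
  exact hle _ _ (norm_nonneg _) (norm_nonneg _)

end Pool.Agent.W347.HQ
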